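import Pool.Agent.W8.ST.Stm

open scoped ContDiff

namespace Pool.Agent.W726.ST.Red1

open Pool.Agent.W8.ST

noncomputable section

theorem per_int (u : V 4 → ℝ) (i : Fin 3)
    (h : ∀ x ∈ strip 3, u (x + Pi.single i.succ (2 * Real.pi)) = u x) :
    ∀ m : ℤ, ∀ x ∈ strip 3, u (x + Pi.single i.succ (2 * Real.pi * m)) = u x := by
  have hs : ∀ (x : V 4) (c : ℝ), x ∈ strip 3 → (x + Pi.single i.succ c) ∈ strip 3 := by
    intro x c hx
    show |(x + Pi.single i.succ c : V 4) 0| ≤ 1
    rw [Pi.add_apply, Pi.single_eq_of_ne (Fin.succ_ne_zero i).symm, add_zero]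
    exact hx
  have hadd : ∀ (x : V 4) (a b : ℝ), x + Pi.single i.succ a + Pi.single i.succ b
      = x + Pi.single i.succ (a + b) := by
    intro x a b
    rw [add_assoc, ← Pi.single_add]
  intro m
  induction m using Int.induction_on with
  | zero =>
    intro x hx
    simp
  | succ n ih =>
    intro x hx
    have h1 := h _ (hs x (2 * Real.pi * ((n : ℤ) : ℝ)) hx)
    rw [hadd] at h1
    have e : 2 * Real.pi * (((n : ℤ) + 1 : ℤ) : ℝ) = 2 * Real.pi * ((n : ℤ) : ℝ) + 2 * Real.pi := by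
      push_cast; ring
    rw [e, h1]
    exact ih x hx
  | pred n ih =>
    intro x hx
    have h1 := h _ (hs x (2 * Real.pi * ((-(n : ℤ) - 1 : ℤ) : ℝ)) hx)
    rw [hadd] at h1
    have e : 2 * Real.pi * ((-(n : ℤ) - 1 : ℤ) : ℝ) + 2 * Real.pi
        = 2 * Real.pi * ((-(n : ℤ) : ℤ) : ℝ) := by
      push_cast; ring
    rw [e] at h1
    rw [← h1]
    exact ih x hx

/-- powers of `i1` -/
def TT (n : ℤ) (x : V 4) : V 4 :=
  ![x 0, (-1 : ℝ) ^ n * x 1, x 2 + Real.pi * n, (-1 : ℝ) ^ n * x 3]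

theorem TT_strip (n : ℤ) (x : V 4) (hx : x ∈ strip 3) : TT n x ∈ strip 3 := hx

theorem TT_succ (n : ℤ) (x : V 4) : TT (n + 1) x = i1 (TT n x) := by
  funext j
  fin_cases j
  · rfl
  · show (-1 : ℝ) ^ (n + 1) * x 1 = -((-1 : ℝ) ^ n * x 1)
    rw [zpow_add_one₀ (by norm_num)]; ring
  · show x 2 + Real.pi * ((n + 1 : ℤ) : ℝ) = x 2 + Real.pi * n + Real.pi
    push_cast; ring
  · show (-1 : ℝ) ^ (n + 1) * x 3 = -((-1 : ℝ) ^ n * x 3)
    rw [zpow_add_one₀ (by norm_num)]; ring

theorem TT_zero (x : V 4) : TT 0 x = x := by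
  funext j
  fin_cases j
  · rfl
  · show (-1 : ℝ) ^ (0 : ℤ) * x 1 = x 1
    simp
  · show x 2 + Real.pi * ((0 : ℤ) : ℝ) = x 2
    simp
  · show (-1 : ℝ) ^ (0 : ℤ) * x 3 = x 3
    simp

theorem TT_inv (u : V 4 → ℝ) (h : Inv i1 u) : ∀ n : ℤ, ∀ x ∈ strip 3, u (TT n x) = u x := by
  intro n
  induction n using Int.induction_on with
  | zero => intro x _; rw [TT_zero]
  | succ n ih =>
    intro x hx
    rw [TT_succ, h _ (TT_strip n x hx)]
    exact ih x hx
  | pred n ih =>
    intro x hx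
    rw [← h _ (TT_strip (-(n : ℤ) - 1) x hx), ← TT_succ]
    have e : (-(n : ℤ) - 1 + 1) = -(n : ℤ) := by ring
    rw [e]
    exact ih x hx

theorem gam1_eq (m n k : ℤ) (x : V 4) : gam1 m n k x
    = TT n x + Pi.single (Fin.succ (0 : Fin 3)) (2 * Real.pi * m)
      + Pi.single (Fin.succ (2 : Fin 3)) (2 * Real.pi * k) := by
  funext j
  rw [Pi.add_apply, Pi.add_apply, Pi.single_apply, Pi.single_apply]
  fin_cases j <;> simp [gam1, TT, Fin.ext_iff]

theorem inv_iff (u : V 4 → ℝ) (hD : Deck) : (∀ γ ∈ M1.Γ, ∀ x ∈ strip 3, u (γ x) = u x) ↔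
    (∀ x ∈ strip 3, ∀ i : Fin 3, u (x + Pi.single i.succ (2 * Real.pi)) = u x) ∧ Inv i1 u := by
  constructor
  · intro h
    have hg : ∀ m n k : ℤ, ∀ x ∈ strip 3, u (gam1 m n k x) = u x := by
      intro m n k x hx
      obtain ⟨γ, hγ, he⟩ := hD.2.1 m n k
      rw [← he]
      exact h γ hγ x hx
    have hT0 : ∀ x : V 4, TT 2 x = x + Pi.single (Fin.succ (1 : Fin 3)) (2 * Real.pi) := by
      intro x
      funext j
      rw [Pi.add_apply, Pi.single_apply]
      fin_cases j
      · simp [TT, Fin.ext_iff]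
      · simp [TT, Fin.ext_iff]
      · simp [TT, Fin.ext_iff]; ring
      · simp [TT, Fin.ext_iff]
    refine ⟨?_, ?_⟩
    · intro x hx i
      fin_cases i
      · have := hg 1 0 0 x hx
        rw [gam1_eq, TT_zero] at this
        simpa using this
      · have := hg 0 2 0 x hx
        rw [gam1_eq, hT0] at this
        simpa using this
      · have := hg 0 0 1 x hx
        rw [gam1_eq, TT_zero] at this
        simpa using this
    · intro x hx
      have := hg 0 1 0 x hx
      have e : gam1 0 1 0 x = i1 x := by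
        have h1 := TT_succ 0 x
        rw [TT_zero, zero_add] at h1
        rw [gam1_eq, h1]
        simp
      rw [e] at this
      exact this
  · rintro ⟨hp, hi⟩ γ hγ x hx
    obtain ⟨m, n, k, he⟩ := hD.1 γ hγ
    rw [he, gam1_eq]
    have h1 : TT n x + Pi.single (Fin.succ (0 : Fin 3)) (2 * Real.pi * m) ∈ strip 3 := by
      show |(TT n x + Pi.single (Fin.succ (0 : Fin 3)) (2 * Real.pi * m) : V 4) 0| ≤ 1
      rw [Pi.add_apply, Pi.single_eq_of_ne (Fin.succ_ne_zero _).symm, add_zero]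
      exact hx
    rw [per_int u 2 (fun x hx => hp x hx 2) k _ h1, per_int u 0 (fun x hx => hp x hx 0) m _
      (TT_strip n x hx)]
    exact TT_inv u hi n x hx

theorem q_pos (t : ℝ) : 0 < q t := Real.exp_pos _

theorem Red1_proof : Pool.Agent.W8.ST.Red1 := by
  intro hD hL
  refine ⟨?_, ?_⟩
  · intro σ u
    constructor
    · rintro ⟨⟨hc, hinv⟩, hlap, hbd⟩
      obtain ⟨hp, hi⟩ := (inv_iff u hD).1 hinv
      refine ⟨⟨hc, hp, ?_, ?_⟩, hi⟩
      · intro x hx
        have h1 : lap gex u x = 0 := hlap x hx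
        rw [hL.1 u hc x] at h1
        rcases mul_eq_zero.1 h1 with h2 | h2
        · exact absurd h2 (inv_ne_zero (q_pos _).ne')
        · rw [h2]; ring
      · intro x hx
        have h1 : normalD gex u x = σ * u x := hbd x hx
        rw [hL.2 u x hx] at h1
        exact h1
    · rintro ⟨⟨hc, hp, hpde, hbd⟩, hi⟩
      refine ⟨⟨hc, (inv_iff u hD).2 ⟨hp, hi⟩⟩, ?_, ?_⟩
      · intro x hx
        show lap gex u x = 0
        rw [hL.1 u hc x]
        have h1 := hpde x hx
        rw [zero_mul, zero_mul, add_zero] at h1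
        rw [h1, mul_zero]
      · intro x hx
        show normalD gex u x = σ * u x
        rw [hL.2 u x hx]
        exact hbd x hx
  · intro lam u
    constructor
    · rintro ⟨⟨hc, hinv⟩, hlap, hbd⟩
      obtain ⟨hp, hi⟩ := (inv_iff u hD).1 hinv
      refine ⟨⟨hc, hp, ?_, ?_⟩, hi⟩
      · intro x hx
        have h1 : -lap gex u x = lam * u x := hlap x hx
        rw [hL.1 u hc x] at h1
        have hq := (q_pos (x 0)).ne'
        have h2 : lam * q (x 0) * u x = q (x 0) * (lam * u x) := by ring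
        rw [h2, ← h1, mul_neg, ← mul_assoc, mul_inv_cancel₀ hq, one_mul]
        ring
      · intro x hx
        have h1 : normalD gex u x = 0 := hbd x hx
        rw [hL.2 u x hx] at h1
        rw [h1, zero_mul]
    · rintro ⟨⟨hc, hp, hpde, hbd⟩, hi⟩
      refine ⟨⟨hc, (inv_iff u hD).2 ⟨hp, hi⟩⟩, ?_, ?_⟩
      · intro x hx
        show -lap gex u x = lam * u x
        rw [hL.1 u hc x]
        have h1 := hpde x hx
        have hq := (q_pos (x 0)).ne'
        have h2 : pd 0 (pd 0 u) x + ((q (x 0))⁻¹) ^ 2 * pd 1 (pd 1 u) x +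
            q (x 0) ^ 2 * (pd 2 (pd 2 u) x + pd 3 (pd 3 u) x) = -(lam * q (x 0) * u x) := by
          linarith
        rw [h2]
        have h3 : -((q (x 0))⁻¹ * -(lam * q (x 0) * u x)) = ((q (x 0))⁻¹ * q (x 0)) * (lam * u x) := by
          ring
        rw [h3, inv_mul_cancel₀ hq, one_mul]
      · intro x hx
        show normalD gex u x = 0
        rw [hL.2 u x hx]
        have h1 := hbd x hx
        rw [zero_mul] at h1
        exact h1

end

end Pool.Agent.W726.ST.Red1

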